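import Mathlib
import Pool.Prelude.Def_F_c31e40fa
import Pool.Agent.H64.FA.J
import Pool.Agent.H64.FA.N

/-!
Variation of the area of the filled Julia set of `z ^ d + c` along holomorphic discs of parameters
in the Multibrot set, in particular in a component of the interior without attracting cycles.
-/

set_option autoImplicit false

open Complex MeasureTheory Filter Metric Set Topology N62a1eb23

namespace Pool.Agent.Results.MP_c35c17_an.AreaVariation

/-- The filled Julia set of `z ^ d + c`. -/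
def filledJulia (d : ℕ) (c : ℂ) : Set ℂ :=
  {z | ¬ Tendsto (fun k => (fun z => z ^ d + c)^[k] z) atTop (Bornology.cobounded ℂ)}

/-- The integral of `|z| ^ (2 (m - 1))` over the filled Julia set; its area if `m = 1`. -/
noncomputable def moment (d m : ℕ) (c : ℂ) : ℝ := ∫ z in filledJulia d c, ‖z‖ ^ (2 * (m - 1))

/-- Let `γ` be a holomorphic disc of parameters which is contained in the Multibrot set, or consists
of parameters without attracting cycles and has its centre in the Multibrot set. For `1 ≤ m < d` the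
moment `A = moment d m` satisfies Harnack's inequality along `γ`; if `A (γ 0) > 0` the mean of
`log A` over the circle of radius `r` is between `log A (γ 0) + log (1 - r ^ 2)` and
`log A (γ 0)`; `γ` and `A ∘ γ` have radial limits `g θ` and `A (g θ)` almost everywhere, and
`A (γ z)` is at least the Poisson integral at `z` of `A ∘ g` plus a constant times
`‖g - γ z‖ ^ 2`; so the mean square distance of the boundary values from `γ 0` is at most
a constant times `A (γ 0)`. For the parametrization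
`t ↦ s t - (s t) ^ d` of the parameters with an attracting fixed point (its multiplier is
`t ^ (d - 1)`) this gives an explicit lower bound and radial continuity at almost every point of the
boundary. -/
theorem result :
    ∀ d m : ℕ, 1 ≤ m → m < d →
    (∀ γ : ℂ → ℂ, DifferentiableOn ℂ γ (ball 0 1) →
      ((∀ t ∈ ball (0 : ℂ) 1, γ t ∈ multibrotSet d) ∨
        (γ 0 ∈ multibrotSet d ∧ ∀ t ∈ ball (0 : ℂ) 1,
          ¬ ∃ k z, IsAttractingCycle (fun z => z ^ d + γ t) k z)) →
      (∀ z : ℂ, ‖z‖ < 1 → (1 - ‖z‖) * moment d m (γ 0) ≤ (1 + ‖z‖) * moment d m (γ z)) ∧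
      (0 < moment d m (γ 0) → ∀ r : ℝ, 0 < r → r < 1 →
        CircleIntegrable (fun z => Real.log (moment d m (γ z))) 0 r ∧
        Real.log (moment d m (γ 0)) + Real.log (1 - r ^ 2) ≤
          Real.circleAverage (fun z => Real.log (moment d m (γ z))) 0 r ∧
        Real.circleAverage (fun z => Real.log (moment d m (γ z))) 0 r ≤
          Real.log (moment d m (γ 0))) ∧
      ∃ g : ℝ → ℂ, (∀ᵐ θ ∂(volume.restrict (Ioc 0 (2 * Real.pi))), g θ ∈ multibrotSet d ∧
          Tendsto (fun r : ℝ => γ (circleMap 0 r θ)) (𝓝[<] 1) (𝓝 (g θ)) ∧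
          Tendsto (fun r : ℝ => moment d m (γ (circleMap 0 r θ))) (𝓝[<] 1)
            (𝓝 (moment d m (g θ)))) ∧
        IntegrableOn (fun θ => moment d m (g θ)) (Ioc 0 (2 * Real.pi)) ∧
        (∀ z : ℂ, IntegrableOn (fun θ => ‖g θ - z‖ ^ 2) (Ioc 0 (2 * Real.pi))) ∧
        (∀ z : ℂ, ‖z‖ < 1 → (2 * Real.pi)⁻¹ * ∫ θ in Ioc 0 (2 * Real.pi),
          (1 - ‖z‖ ^ 2) / ‖circleMap 0 1 θ - z‖ ^ 2 *
            (moment d m (g θ) + Real.pi * ((d : ℝ) - m) / d ^ 2 * ‖g θ - γ z‖ ^ 2) ≤
          moment d m (γ z)) ∧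
        (2 * Real.pi)⁻¹ * ∫ θ in Ioc 0 (2 * Real.pi), ‖g θ - γ 0‖ ^ 2 ≤
          d ^ 2 / (Real.pi * ((d : ℝ) - m)) * moment d m (γ 0)) ∧
    (∀ s : ℝ, 0 < s → d * s ^ (d - 1) = 1 →
      (∀ t : ℂ, ‖t‖ < 1 →
        (1 - ‖t‖) * (Real.pi / m) ≤ (1 + ‖t‖) * moment d m (s * t - (s * t) ^ d)) ∧
      ∀ᵐ θ ∂(volume.restrict (Ioc 0 (2 * Real.pi))),
        Tendsto (fun r : ℝ => moment d m (s * circleMap 0 r θ - (s * circleMap 0 r θ) ^ d)) (𝓝[<] 1)
          (𝓝 (moment d m (s * circleMap 0 1 θ - (s * circleMap 0 1 θ) ^ d)))) := by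
  intro d m hm hmd
  have hd : 2 ≤ d := by omega
  refine ⟨fun γ hγ hM => ?_, fun s hs hs1 => Pool.Agent.H64.FA.main_comp hm hmd hs hs1⟩
  have hM' : ∀ t ∈ ball (0 : ℂ) 1, γ t ∈ multibrotSet d := by
    rcases hM with h | ⟨h0, hno⟩
    · exact h
    · exact Pool.Agent.H64.FA.inside hd hγ h0 hno
  obtain ⟨h1, h2, -⟩ := Pool.Agent.H64.FA.main hm hmd hγ hM'
  obtain ⟨g, h3, h4, h5, h6, h7⟩ := Pool.Agent.H64.FA.main3 hm hmd hγ hM'
  refine ⟨h1, h2, g, h3, h4, h5, fun z hz => ?_, h7⟩
  have h8 := h6 z hz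
  simp only [poissonKernel_def, sub_zero, norm_circleMap_zero, abs_one, one_pow] at h8
  exact h8

end Pool.Agent.Results.MP_c35c17_an.AreaVariation
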