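import Mathlib
import Pool.Prelude.Def_F_c31e40fa
import Pool.Agent.H46MB.Eff
import Pool.Agent.H46TP.Uni

/-!
# The distance to hyperbolicity against the critical orbit and its derivatives

Let `z_n(c)` be the `n`-th iterate of the critical value `c` under `z ^ d + c`. Its zeros are the
superattracting parameters of period dividing `n + 1`, and `z_n(c) / z_n'(c)` is the step of Newton's
method from `c`. For every degree `d ≥ 2`, every `c` in the Multibrot set and every `n`,

`|z_n'(c)| * dist(c, hyperbolic parameters) ≤ (1 / π) ∫ dA(z) / |z - z_n(c)| ≤ (2 / √π) √(area K_c)`,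

`|z_n'(c)| * dist(c, hyperbolic parameters) ≤ (1 / π) ∫ |z_n(c)| dA(z) / (|z| |z - z_n(c)|)`
`≤ |z_n(c)| * (4 + log (1 + 4 area(K_c) / (π |z_n(c)| ^ 2)))`,

where the integrals are over the filled Julia set `K_c`. This follows from a bound for the relative
speed of two holomorphically moving points `a`, `b` of the filled Julia sets, by the integral of
`|a - b| / (|z - a| |z - b|)`, where `b` may be infinity. It is obtained from the area theorem by an
infinite sequence of square root transforms. There is an effective version with superattracting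
parameters of bounded period.
-/

set_option autoImplicit false

open MeasureTheory Filter Metric

namespace Pool.Agent.Results.MP_c35c17_an.CriticalOrbitSpeed

/-- The map `z ↦ z ^ d + c`. -/
def f (d : ℕ) (c : ℂ) : ℂ → ℂ := fun z => z ^ d + c

/-- The filled Julia set of `z ^ d + c`. -/
def filledJulia (d : ℕ) (c : ℂ) : Set ℂ :=
  {z | ¬ Tendsto (fun k => (f d c)^[k] z) atTop (Bornology.cobounded ℂ)}

/-- The area of the filled Julia set. -/
noncomputable def area (d : ℕ) (c : ℂ) : ℝ := (volume (filledJulia d c)).toReal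

/-- The escape rate (Green's function) of `z ↦ z ^ d + c` at the point `z`. -/
noncomputable def green (d : ℕ) (c z : ℂ) : ℝ :=
  limsup (fun n : ℕ => Real.posLog ‖(f d c)^[n] z‖ / (d : ℝ) ^ n) atTop

/-- The parameters `c` for which `z ^ d + c` has an attracting cycle. -/
def hyp (d : ℕ) : Set ℂ := {c | ∃ m z, N62a1eb23.IsAttractingCycle (f d c) m z}

/-- The `n`-th point `z_n` of the orbit of the critical value, a polynomial in the parameter. -/
def orbit (d n : ℕ) (c : ℂ) : ℂ := (f d c)^[n] c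

/-- `(1 / π)` times the integral of `1 / |z - a|` over the filled Julia set. -/
noncomputable def kernelOne (d : ℕ) (c a : ℂ) : ℝ :=
  1 / Real.pi * ∫ z in filledJulia d c, ‖z - a‖⁻¹

/-- `(1 / π)` times the integral of `1 / (|z - a| |z - b|)` over the filled Julia set. -/
noncomputable def kernel (d : ℕ) (c a b : ℂ) : ℝ :=
  1 / Real.pi * ∫ z in filledJulia d c, (‖z - a‖ * ‖z - b‖)⁻¹

theorem result (d : ℕ) (hd : 2 ≤ d) :
    -- (0) the explicit bounds for the kernels
    (∀ c a : ℂ, kernelOne d c a ≤ 2 / √Real.pi * √(area d c)) ∧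
    (∀ c a b : ℂ, a ≠ b →
      kernel d c a b ≤ 4 + Real.log (1 + 4 * area d c / (Real.pi * ‖a - b‖ ^ 2))) ∧
    -- (1) the speed, and the relative speed, of all holomorphically moving points of the filled Julia
    -- sets, along holomorphic discs `γ` of parameters
    (∀ V : Set ℂ, IsOpen V → IsPreconnected V →
      ((∀ c ∈ V, c ∉ hyp d) ∨ V ⊆ N62a1eb23.multibrotSet d) →
      ∀ γ : ℂ → ℂ, DifferentiableOn ℂ γ (ball 0 1) → (∀ t ∈ ball (0 : ℂ) 1, γ t ∈ V) →
      γ 0 ∈ N62a1eb23.multibrotSet d →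
      ∀ ζ : ℂ → ℂ, DifferentiableOn ℂ ζ (ball 0 1) →
        (∀ t ∈ ball (0 : ℂ) 1, ζ t ∈ filledJulia d (γ t)) →
        ‖deriv ζ 0‖ ≤ kernelOne d (γ 0) (ζ 0) ∧
        ∀ η : ℂ → ℂ, DifferentiableOn ℂ η (ball 0 1) →
          (∀ t ∈ ball (0 : ℂ) 1, η t ∈ filledJulia d (γ t) ∧ ζ t ≠ η t) →
          ‖deriv ζ 0 - deriv η 0‖ ≤ ‖ζ 0 - η 0‖ * kernel d (γ 0) (ζ 0) (η 0)) ∧
    -- (2) the distance to the parameters with an attracting cycle
    (∀ c ∈ N62a1eb23.multibrotSet d, ∀ n : ℕ,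
      ‖deriv (orbit d n) c‖ * infDist c (hyp d) ≤ kernelOne d c (orbit d n c) ∧
      ‖deriv (orbit d n) c‖ * infDist c (hyp d) ≤
        ‖orbit d n c‖ * kernel d c 0 (orbit d n c)) ∧
    -- (3) the distance against the Newton steps
    (∀ c ∈ N62a1eb23.multibrotSet d, ∀ n : ℕ, deriv (orbit d n) c ≠ 0 →
      infDist c (hyp d) ≤ ‖orbit d n c / deriv (orbit d n) c‖ *
        (4 + Real.log (1 + 4 * area d c / (Real.pi * ‖orbit d n c‖ ^ 2)))) ∧
    -- (4) the distance to the superattracting parameters of period at most `J + n + 3`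
    (∃ K : ℝ, 0 < K ∧ ∀ c ∈ N62a1eb23.multibrotSet d, ∀ J n : ℕ, ∃ c' : ℂ,
      (∃ p : ℕ, p ≤ J + n + 3 ∧ (f d c')^[p] 0 = 0 ∧ N62a1eb23.IsAttractingCycle (f d c') p 0) ∧
      ‖deriv (orbit d n) c‖ * ‖c' - c‖ ≤
        5 * √((volume {z | green d c z ≤ K / (d : ℝ) ^ J}).toReal)) := by
  have hDD : ∀ n c, deriv (orbit d n) c = Pool.Agent.H46MB.DD d n c := by
    intro n c
    unfold Pool.Agent.H46MB.DD
    congr 1
    funext a
    exact Pool.Agent.H712R2.iter_c hd n a
  have hP : ∀ n c, orbit d n c = Pool.Agent.H712R2.P d (n + 1) c := fun n c =>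
    Pool.Agent.H712R2.iter_c hd n c
  have hpot : ∀ c a, kernelOne d c a =
      1 / Real.pi * ∫ z in Pool.Agent.H713R2.AR.KK d c, ‖z - a‖⁻¹ := fun _ _ => rfl
  have hker : ∀ c a b, kernel d c a b =
      1 / Real.pi * ∫ z in Pool.Agent.H713R2.AR.KK d c, (‖z - a‖ * ‖z - b‖)⁻¹ := fun _ _ _ => rfl
  have h0 : ∀ c a b : ℂ, a ≠ b →
      kernel d c a b ≤ 4 + Real.log (1 + 4 * area d c / (Real.pi * ‖a - b‖ ^ 2)) :=
    fun c a b hab => Pool.Agent.H46TP.kernel_le hd c hab
  have h2 : ∀ c ∈ N62a1eb23.multibrotSet d, ∀ n : ℕ,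
      ‖deriv (orbit d n) c‖ * infDist c (hyp d) ≤
        ‖orbit d n c‖ * kernel d c 0 (orbit d n c) := by
    intro c hc n
    have h := Pool.Agent.H46TP.dist_newton hd hc n
    rw [hDD, hP, hker]
    simp only [sub_zero]
    exact h
  refine ⟨fun c a => Pool.Agent.H46MB.pot_le (Pool.Agent.H46MB.isCompact_KK hd c) a, h0, ?_, ?_, ?_,
    ?_⟩
  · intro V hV hVc hno γ hγ hγV hγ0 ζ hζ hK
    have hVM : V ⊆ N62a1eb23.multibrotSet d := by
      rcases hno with h | h
      · exact Pool.Agent.H713R2.AR.open_subset hd hV hVc (hγV 0 (mem_ball_self one_pos)) hγ0 h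
      · exact h
    have hγM : ∀ t ∈ ball (0 : ℂ) 1, γ t ∈ N62a1eb23.multibrotSet d := fun t ht => hVM (hγV t ht)
    refine ⟨Pool.Agent.H46MB.speed_K hd hγ hγM hζ hK, fun η hη hK' => ?_⟩
    exact Pool.Agent.H46TP.two_K hd hγ hγM hζ hη hK (fun t ht => (hK' t ht).1)
      (fun t ht => (hK' t ht).2)
  · intro c hc n
    refine ⟨?_, h2 c hc n⟩
    rw [hDD, hP, hpot]
    exact Pool.Agent.H46MB.dist_DD hd hc n
  · intro c hc n hD
    have hDn : 0 < ‖deriv (orbit d n) c‖ := norm_pos_iff.mpr hD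
    have h := h2 c hc n
    by_cases hz : orbit d n c = 0
    · rw [hz, norm_zero, zero_mul] at h
      rw [hz, zero_div, norm_zero, zero_mul]
      nlinarith
    · have h3 := h0 c 0 (orbit d n c) (Ne.symm hz)
      rw [zero_sub, norm_neg] at h3
      have h4 := h.trans (mul_le_mul_of_nonneg_left h3 (norm_nonneg _))
      rw [norm_div, div_mul_eq_mul_div, le_div_iff₀ hDn, mul_comm]
      exact h4
  · have hK : 0 < Pool.Agent.H548R3.MB.KC d 1 := by
      have h1 := Pool.Agent.H548R3.MB.lt_KC hd 1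
      have h2 : (0 : ℝ) ≤ d := Nat.cast_nonneg d
      linarith
    refine ⟨_, hK, ?_⟩
    intro c hc J n
    obtain ⟨c', ⟨p, hp1, hp2, hp3⟩, h⟩ := Pool.Agent.H46MB.nearestD hd hc J n
    refine ⟨c', ⟨p, hp2, hp3, Pool.Agent.H548R3.MB.att_of_centre hd hp1 hp3⟩, ?_⟩
    rw [hDD]
    have h1 := (h 1).trans (Pool.Agent.H46MB.vol_SQ_le' _
      (Pool.Agent.H713R2.AR.isCompact_GLev hd c _))
    have hdR : (2 : ℝ) ≤ d := by exact_mod_cast hd
    have hsub : Pool.Agent.H713R2.AR.GLev d c (Pool.Agent.H548R3.MB.KC d 1 / (d : ℝ) ^ (J + 2)) ⊆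
        {z | green d c z ≤ Pool.Agent.H548R3.MB.KC d 1 / (d : ℝ) ^ J} := by
      intro z hz
      have hz' : green d c z ≤ Pool.Agent.H548R3.MB.KC d 1 / (d : ℝ) ^ (J + 2) := hz
      refine hz'.trans ?_
      exact div_le_div_of_nonneg_left hK.le (by positivity)
        (pow_le_pow_right₀ (by linarith) (by omega))
    have hfin : volume {z | green d c z ≤ Pool.Agent.H548R3.MB.KC d 1 / (d : ℝ) ^ J} ≠ ⊤ :=
      (Pool.Agent.H713R2.AR.isCompact_GLev hd c _).measure_lt_top.ne
    have h2 := Real.sqrt_le_sqrt (ENNReal.toReal_mono hfin (measure_mono hsub))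
    set S : ℝ := √((volume {z | green d c z ≤ Pool.Agent.H548R3.MB.KC d 1 / (d : ℝ) ^ J}).toReal)
      with hS
    have hS0 : 0 ≤ S := Real.sqrt_nonneg _
    set T : ℝ := √((volume (Pool.Agent.H713R2.AR.GLev d c
      (Pool.Agent.H548R3.MB.KC d 1 / (d : ℝ) ^ (J + 2)))).toReal) with hT
    have hT0 : 0 ≤ T := Real.sqrt_nonneg _
    have h3 : 2 / √Real.pi ≤ 5 / 4 := by
      have h4 : (8 / 5 : ℝ) ≤ √Real.pi := by
        apply Real.le_sqrt_of_sq_le
        have := Real.pi_gt_three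
        norm_num
        linarith
      rw [div_le_div_iff₀ (by linarith) (by norm_num)]
      linarith
    have h4 : (1 - (3 / 4 : ℝ) ^ 1) = 1 / 4 := by norm_num
    rw [h4] at h1
    have h5 : 2 / √Real.pi * T ≤ 5 / 4 * S := mul_le_mul h3 h2 hT0 (by norm_num)
    linarith

end Pool.Agent.Results.MP_c35c17_an.CriticalOrbitSpeed
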