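import Mathlib
import Pool.Prelude.Def_F_c31e40fa
import Pool.Agent.K7x.IN.E

/-!
# Collet-Eckmann parameters are invisible from inside the Multibrot sets

Let `d ≥ 2` and let `M` be the Multibrot set of degree `d`. A parameter `c` of `M` is a
Collet-Eckmann parameter if the derivatives of the iterates of `z ^ d + c` at the critical value
grow exponentially. The class `CE d C₁ lam` of those with derivatives `≥ lam ^ n / C₁` is compact.

* Every holomorphic map `φ` of the unit disc into `M` approaches the class `CE d C₁ lam` only at a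
  logarithmic rate: the distance of `φ z` to a point of the class is at least
  `(A + B log (1 / (1 - |z|))) ^ (- 1 / κ)`.
* If `φ` is univalent, for instance a conformal map onto a component of the interior of `M`, then the
  harmonic measure, seen from `φ 0`, of the neighbourhood of radius `r` of the whole class
  `CE d C₁ lam` is less than `exp (- c r ^ (- κ))`, up to a factor `r ^ (-2)`. Almost no radial limit
  of `φ` is a Collet-Eckmann parameter. On the contrary, the image is fat at almost all radial limits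
  `p`: it contains discs of radius `s ^ (1 + ε)` in the disc of radius `s` about `p`, for all small `s`.
* Almost all external rays of `M` land at Collet-Eckmann parameters, where `M` is thin: discs in `M`
  at distance `s` have radius at most `B s ^ (1 + κ)`, for every `κ < 1 / (d - 1)`.

So for every component of the interior of `M`, in particular for those without attracting cycles, if
there are any, the harmonic measure from inside is singular to the harmonic measure of `M` from
outside, and hyperbolicity is dense in `M` if and only if no fat boundary point (of the component)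
exists on components without attracting cycles.

The starting point is the inequality `|γ' 0| ≤ B |γ 0 - c| ^ (1 + κ)` for all holomorphic discs `γ`
in `M` and all `c` in `CE d C₁ lam`, which is proved in `Pool/Agent/Y298/CD` (`upper_uniform`). New is
its use on the boundary of the components, in `Pool/Agent/K7x/IN`.
-/

set_option autoImplicit false

open Filter Topology Set Metric MeasureTheory Complex N62a1eb23

namespace Pool.Agent.Results.MP_c35c17_an.InvisibleColletEckmann

open Pool.Agent.H713R2 (IsExteriorMap)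

/-- The parameters `c` of the Multibrot set for which the derivatives of the iterates of `z ^ d + c` at
the critical value `c` are at least `lam ^ n / C₁`. -/
def CE (d : ℕ) (C₁ lam : ℝ) : Set ℂ :=
  {c | c ∈ multibrotSet d ∧ ∀ n : ℕ, lam ^ n ≤ C₁ * ‖deriv ((fun z : ℂ => z ^ d + c)^[n]) c‖}

/-- The Collet-Eckmann parameters of the Multibrot set. -/
def ColletEckmann (d : ℕ) (c : ℂ) : Prop := ∃ C₁ lam : ℝ, 1 < lam ∧ c ∈ CE d C₁ lam

/-- The parameters in `ℂ` for which `z ↦ z ^ d + c` has an attracting cycle. -/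
def hyperbolic (d : ℕ) : Set ℂ := {c | ∃ m z, IsAttractingCycle (fun z => z ^ d + c) m z}

/-- `V` is a connected component of the interior of the Multibrot set. -/
def IsComponent (d : ℕ) (V : Set ℂ) : Prop :=
  ∃ c ∈ interior (multibrotSet d), V = connectedComponentIn (interior (multibrotSet d)) c

/-- `φ` is a holomorphic map of the unit disc into the Multibrot set. -/
def Disc (d : ℕ) (φ : ℂ → ℂ) : Prop :=
  DifferentiableOn ℂ φ (ball 0 1) ∧ φ '' ball 0 1 ⊆ multibrotSet d

/-- `c` is the radial limit of `φ` at the angle `t`. -/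
def RadialLimit (φ : ℂ → ℂ) (t : ℝ) (c : ℂ) : Prop :=
  Tendsto (fun r : ℝ => φ (r * exp (t * I))) (𝓝[<] 1) (𝓝 c)

/-- The angles in `(0, 2π]` at which `φ` has a radial limit at distance less than `r` from `K`. Divided
by `2π`, the measure of this set is the harmonic measure of the `r`-neighbourhood of `K` if `φ` is a
conformal map. -/
def angles (φ : ℂ → ℂ) (K : Set ℂ) (r : ℝ) : Set ℝ :=
  {t | t ∈ Ioc 0 (2 * Real.pi) ∧ ∃ p : ℂ, RadialLimit φ t p ∧ ∃ c ∈ K, ‖p - c‖ < r}

/-- `φ` approaches `c` at most at a logarithmic rate. -/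
def LogRate (B κ : ℝ) (φ : ℂ → ℂ) (c : ℂ) : Prop :=
  ∀ z ∈ ball (0 : ℂ) 1, φ z ≠ c ∧
    ‖φ z - c‖ ^ (-κ) ≤ ‖φ 0 - c‖ ^ (-κ) + B * Real.log (1 / (1 - ‖z‖))

/-- `S` is fat at `p`: for every `ε > 0` and all small `s` it contains a disc of radius `s ^ (1 + ε)` in
the disc of radius `s` about `p`. -/
def Fat (S : Set ℂ) (p : ℂ) : Prop :=
  ∀ ε : ℝ, 0 < ε → ∀ᶠ s : ℝ in 𝓝[>] 0, ∃ a : ℂ, ball a (s ^ (1 + ε)) ⊆ S ∩ ball p s

/-- `S` is thin at `p` with the exponent `1 + κ`: the discs in `S` in the disc of radius `s` about `p`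
have radius at most a constant times `s ^ (1 + κ)`. -/
def Thin (κ : ℝ) (S : Set ℂ) (p : ℂ) : Prop :=
  ∃ B : ℝ, 0 < B ∧ ∀ (s ρ : ℝ) (a : ℂ), 0 < ρ → ball a ρ ⊆ S ∩ ball p s → ρ ≤ B * s ^ (1 + κ)

open Pool.Agent.K7x

theorem log_eq {z : ℂ} : -Real.log (1 - ‖z‖) = Real.log (1 / (1 - ‖z‖)) := by
  rw [one_div, Real.log_inv]

theorem logRate {M K : Set ℂ} {B κ : ℝ} {φ : ℂ → ℂ} {c : ℂ} (h : IN.Slow M K B κ) (hB : 0 ≤ B)
    (hκ : 0 < κ) (hφ : DifferentiableOn ℂ φ (ball 0 1)) (hM : φ '' ball 0 1 ⊆ M) (hc : c ∈ K)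
    (h0 : φ 0 ≠ c) : LogRate (κ * B) κ φ c := by
  intro z hz
  obtain ⟨h1, h2⟩ := h.rate hB hκ hφ (image_subset_iff.1 hM) hc h0 hz
  rw [log_eq] at h2
  exact ⟨h1, h2⟩

theorem mem_CE {d : ℕ} {c : ℂ} (h : ColletEckmann d c) :
    ∃ C₁ lam : ℝ, 1 ≤ C₁ ∧ 1 < lam ∧ c ∈ IN.CE d C₁ lam := by
  obtain ⟨C₁, lam, hlam, hc⟩ := h
  obtain ⟨n, hn⟩ := IN.ce_nat hlam hc
  have h1 : (0 : ℝ) < (n : ℝ) + 1 := by positivity
  refine ⟨n + 1, 1 + 1 / (n + 1), by linarith [Nat.cast_nonneg (α := ℝ) n], ?_, hn⟩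
  have : 0 < 1 / ((n : ℝ) + 1) := by positivity
  linarith

/-- **Collet-Eckmann parameters are invisible from inside the Multibrot sets**, and the density of
hyperbolicity is decided at fat boundary parameters. For every degree `d ≥ 2`:

(1) All holomorphic maps of the disc into the Multibrot set `M` approach the class `CE d C₁ lam` at
most at a logarithmic rate, with an exponent and a constant that depend only on `d`, `C₁` and
`lam`. If such a map is univalent, the harmonic measure of the neighbourhood of radius `r` of the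
class is at most `16 π r ^ (-2) exp (- ((2 r) ^ (-κ) - δ ^ (-κ)) / B)`, where `δ` is the distance from
`φ 0` to the class.

(2) At parameters with a positive Lyapunov exponent the rate holds with every `κ < 1 / (d - 1)`.

(3) Collet-Eckmann parameters are boundary points of `M`, and `M` is not fat there.

(4) Every univalent map of the disc into `M` has at almost every angle a radial limit, which is not a
Collet-Eckmann parameter, and at which the image is fat.

(5) Almost every external ray of `M` lands at a Collet-Eckmann parameter, where `M` is thin with every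
exponent less than `1 + 1 / (d - 1)`.

(6) Every component of the interior of `M` is the image of a univalent map of the disc.

(7) Hyperbolicity is dense in `M` if and only if no component of the interior of `M` without
attracting cycles has a boundary point at which it is fat. -/
theorem result (d : ℕ) (hd : 2 ≤ d) :
    -- (1)
    (∀ C₁ lam κ : ℝ, 1 ≤ C₁ → 1 < lam → 0 < κ →
      κ * (d * Real.log (2 * d) - Real.log lam) < Real.log lam →
      ∃ B : ℝ, 0 < B ∧ ∀ φ : ℂ → ℂ, Disc d φ →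
        (∀ c ∈ CE d C₁ lam, φ 0 ≠ c → LogRate B κ φ c) ∧
        (InjOn φ (ball 0 1) → ∀ δ r : ℝ, (∀ c ∈ CE d C₁ lam, δ ≤ ‖φ 0 - c‖) → 0 < r → 2 * r ≤ δ →
          volume (angles φ (CE d C₁ lam) r) ≤ ENNReal.ofReal
            (16 * Real.pi / r ^ 2 * Real.exp (-(((2 * r) ^ (-κ) - δ ^ (-κ)) / B))))) ∧
    -- (2)
    (∀ (χ κ : ℝ) (c : ℂ), 0 < χ → c ∈ multibrotSet d →
      Tendsto (fun n : ℕ => Real.log ‖deriv ((fun z : ℂ => z ^ d + c)^[n]) c‖ / n) atTop (𝓝 χ) →
      0 < κ → κ < 1 / ((d : ℝ) - 1) →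
      ∃ B : ℝ, 0 < B ∧ ∀ φ : ℂ → ℂ, Disc d φ → φ 0 ≠ c → LogRate B κ φ c) ∧
    -- (3)
    (∀ c : ℂ, ColletEckmann d c → c ∈ frontier (multibrotSet d) ∧ ¬ Fat (multibrotSet d) c) ∧
    -- (4)
    (∀ φ : ℂ → ℂ, Disc d φ → InjOn φ (ball 0 1) → ∀ᵐ t : ℝ, ∃ c ∈ multibrotSet d,
      RadialLimit φ t c ∧ ¬ ColletEckmann d c ∧ Fat (φ '' ball 0 1) c) ∧
    -- (5)
    ((∃ ψ : ℂ → ℂ, IsExteriorMap (multibrotSet d) ψ) ∧
      ∀ ψ : ℂ → ℂ, IsExteriorMap (multibrotSet d) ψ → ∀ᵐ t : ℝ, ∃ c ∈ frontier (multibrotSet d),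
        Tendsto (fun r : ℝ => ψ (r * exp (t * I))) (𝓝[>] 1) (𝓝 c) ∧ ColletEckmann d c ∧
        ∀ κ : ℝ, 0 < κ → κ < 1 / ((d : ℝ) - 1) → Thin κ (multibrotSet d) c) ∧
    -- (6)
    (∀ V : Set ℂ, IsComponent d V →
      ∃ φ : ℂ → ℂ, Disc d φ ∧ InjOn φ (ball 0 1) ∧ φ '' ball 0 1 = V) ∧
    -- (7)
    (multibrotSet d ⊆ closure (hyperbolic d) ↔
      ∀ V : Set ℂ, IsComponent d V → Disjoint V (hyperbolic d) → ∀ c ∈ frontier V, ¬ Fat V c) := by
  have hK4 : ∀ C₁ lam : ℝ, CE d C₁ lam ⊆ closedBall 0 2 := fun C₁ lam c hc =>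
    mem_closedBall_zero_iff.2 (IN.norm_le_two hd hc.1)
  have hM4 : multibrotSet d ⊆ closedBall 0 2 := fun c hc =>
    mem_closedBall_zero_iff.2 (IN.norm_le_two hd hc)
  have hnotfat : ∀ c : ℂ, ColletEckmann d c → ¬ Fat (multibrotSet d) c := by
    intro c hc
    obtain ⟨C₁, lam, h1, h2, h3⟩ := mem_CE hc
    exact IN.ce_not_fat hd h1 h2 h3
  refine ⟨?_, ?_, ?_, ?_, ⟨?_, ?_⟩, ?_, ?_⟩
  · intro C₁ lam κ hC₁ hlam hκ hκ1
    obtain ⟨B, hB, h⟩ := IN.slow_ce hd hC₁ hlam hκ hκ1
    refine ⟨κ * B, by positivity, fun φ hφ => ⟨fun c hc h0 => ?_, fun hinj δ r hδ hr hrδ => ?_⟩⟩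
    · exact logRate h hB.le hκ hφ.1 hφ.2 hc h0
    · exact h.vol hB hκ hφ.1 hinj (image_subset_iff.1 hφ.2) hM4 (hK4 C₁ lam) hr hrδ hδ
  · intro χ κ c hχ hc hlim hκ hκ1
    obtain ⟨B, hB, h⟩ := IN.slow_lyap hd hχ hc hlim hκ hκ1
    exact ⟨κ * B, by positivity, fun φ hφ h0 =>
      logRate h hB.le hκ hφ.1 hφ.2 (mem_singleton c) h0⟩
  · intro c hc
    refine ⟨?_, hnotfat c hc⟩
    obtain ⟨C₁, lam, h1, h2, h3⟩ := mem_CE hc
    obtain ⟨κ, hκ, hκ1⟩ := IN.exists_kappa hd h2
    obtain ⟨B, hB, h⟩ := IN.slow_ce hd h1 h2 hκ hκ1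
    exact ⟨subset_closure h3.1, h.not_interior hκ h3⟩
  · intro φ hφ hinj
    filter_upwards [IN.ae_fat φ hφ.1 hinj] with t ht
    obtain ⟨p, hp, hf⟩ := ht
    have hcl : IsClosed (multibrotSet d) := (Pool.Agent.H712R2.isCompact_multibrot hd).isClosed
    have hpM : p ∈ multibrotSet d := by
      refine hcl.mem_of_tendsto hp ?_
      filter_upwards [Ioo_mem_nhdsLT (zero_lt_one' ℝ)] with r hr
      apply hφ.2
      refine mem_image_of_mem φ ?_
      rw [mem_ball_zero_iff, norm_mul, norm_exp_ofReal_mul_I, mul_one, Complex.norm_real,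
        Real.norm_of_nonneg hr.1.le]
      exact hr.2
    have hf' : Fat (multibrotSet d) p := by
      intro ε hε
      filter_upwards [hf ε hε] with s hs
      obtain ⟨a, ha⟩ := hs
      exact ⟨a, ha.trans (inter_subset_inter_left _ hφ.2)⟩
    exact ⟨p, hpM, hp, fun hce => hnotfat p hce hf', hf⟩
  · obtain ⟨β, hβ⟩ := Pool.Agent.H713R2.exists_beta (d := d) hd
    exact ⟨_, Pool.Agent.H713R2.exteriorMap_of_beta hβ⟩
  · intro ψ hψ
    filter_upwards [IN.ae_lyap hd hψ] with t ht
    obtain ⟨c, hc, hl, hlim⟩ := ht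
    have hdR : (2 : ℝ) ≤ d := by exact_mod_cast hd
    have hχ : 0 < Real.log d := Real.log_pos (by linarith)
    have hcM : c ∈ multibrotSet d :=
      (Pool.Agent.H712R2.isCompact_multibrot hd).isClosed.frontier_subset hc
    refine ⟨c, hc, hl, ?_, fun κ hκ hκ1 => ?_⟩
    · obtain ⟨C₁, lam, h1, h2, h3⟩ := IN.ce_of_lyap hd hχ hcM hlim
      exact ⟨C₁, lam, h2, h3⟩
    · obtain ⟨B, hB, h⟩ := IN.slow_lyap hd hχ hcM hlim hκ hκ1
      exact ⟨B, hB, fun s ρ a hρ ha => h.thin hB.le hκ (mem_singleton c) hρ ha⟩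
  · intro V hV
    obtain ⟨φ, h1, h2, h3⟩ := IN.exists_riemann hd (V := V) hV
    refine ⟨φ, ⟨h1, ?_⟩, h2, h3⟩
    rw [h3]
    exact Pool.Agent.N673.QC.IsComp.sub hV
  · rw [show hyperbolic d = {c | ∃ m z, IsAttractingCycle (fun z => z ^ d + c) m z} from rfl,
      IN.dense_iff hd]
    constructor
    · intro h V hV hdis c hc hf
      obtain ⟨c', hc', h1⟩ := h V hV c hc hf
      exact (disjoint_left.1 hdis hc') h1
    · intro h V hV c hc hf
      by_contra hcon
      push Not at hcon
      refine h V hV (disjoint_left.2 fun c' hc' h1 => ?_) c hc hf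
      obtain ⟨m, z, hz⟩ := h1
      exact hcon c' hc' m z hz

end Pool.Agent.Results.MP_c35c17_an.InvisibleColletEckmann
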