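import Mathlib
import Pool.Prelude.Def_F_c31e40fa
import Pool.Agent.H46TP.Fin

/-!
# The distance to hyperbolicity against the derivatives of the multipliers of repelling cycles

Let `λ` be the multiplier of a repelling periodic point `α` of `z ^ d + c` of any period, as a function
of the parameter. For every degree `d ≥ 2` and every `c` in the Multibrot set,

`|λ'(c)| * dist(c, hyperbolic parameters) ≤ 2 θ |λ(c)| log |λ(c)|`,

where `θ ≤ 1` is the upper logarithmic density of the filled Julia set at `α(c)`: the limit superior,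
as `ε → 0`, of the share of the filled Julia set in the annulus `ε ≤ |z - α(c)| < 1` for the measure
`|z - α(c)| ^ (-2) dA`. The same holds for holomorphic discs of parameters. The Schwarz-Pick lemma gives
the inequality with `θ = 1`.

The proof extends the vector field of the holomorphic motion of the basin of infinity to the boundary of
the filled Julia set, bounds its modulus of continuity by the kernel of two points (of `NewtonSteps`),
and compares the growth of its difference quotients along backward orbits converging to `α(c)` with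
`λ'(c) / λ(c)`.
-/

set_option autoImplicit false

open MeasureTheory Filter Metric Topology

namespace Pool.Agent.Results.MP_c35c17_an.MultiplierDensity

/-- The map `z ↦ z ^ d + c`. -/
def f (d : ℕ) (c : ℂ) : ℂ → ℂ := fun z => z ^ d + c

/-- The filled Julia set of `z ^ d + c`. -/
def filledJulia (d : ℕ) (c : ℂ) : Set ℂ :=
  {z | ¬ Tendsto (fun k => (f d c)^[k] z) atTop (Bornology.cobounded ℂ)}

/-- The parameters `c` for which `z ^ d + c` has an attracting cycle. -/
def hyp (d : ℕ) : Set ℂ := {c | ∃ m z, N62a1eb23.IsAttractingCycle (f d c) m z}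

/-- The derivative of the `p`-th iterate of `z ^ d + c` at `z`. -/
noncomputable def multiplier (d p : ℕ) (c z : ℂ) : ℂ := deriv (f d c)^[p] z

/-- The share of `E` in the annulus `ε ≤ |z - a| < 1`, for the measure `|z - a| ^ (-2) dA`, for which
the annulus has the mass `2 π log (1 / ε)`. -/
noncomputable def share (E : Set ℂ) (a : ℂ) (ε : ℝ) : ℝ :=
  (∫ z in E ∩ (ball a 1 \ ball a ε), (‖z - a‖ ^ 2)⁻¹) / (2 * Real.pi * Real.log (1 / ε))

/-- The upper logarithmic density of `E` at `a`. -/
noncomputable def density (E : Set ℂ) (a : ℂ) : ℝ := limsup (share E a) (𝓝[>] 0)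

theorem result (d : ℕ) (hd : 2 ≤ d) :
    (∀ (E : Set ℂ) (a : ℂ), 0 ≤ density E a ∧ density E a ≤ 1) ∧
    -- (1) holomorphic discs `γ` of parameters, and a periodic point `α` which is repelling at `γ 0`
    (∀ V : Set ℂ, IsOpen V → IsPreconnected V →
      ((∀ c ∈ V, c ∉ hyp d) ∨ V ⊆ N62a1eb23.multibrotSet d) →
      ∀ γ : ℂ → ℂ, DifferentiableOn ℂ γ (ball 0 1) → (∀ t ∈ ball (0 : ℂ) 1, γ t ∈ V) →
      γ 0 ∈ N62a1eb23.multibrotSet d →
      ∀ p : ℕ, 0 < p → ∀ α : ℂ → ℂ, DifferentiableAt ℂ α (γ 0) →
        (∀ᶠ c in 𝓝 (γ 0), (f d c)^[p] (α c) = α c) →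
        1 < ‖multiplier d p (γ 0) (α (γ 0))‖ →
        ‖deriv (fun c => multiplier d p c (α c)) (γ 0)‖ * ‖deriv γ 0‖ ≤
          2 * density (filledJulia d (γ 0)) (α (γ 0)) *
            (‖multiplier d p (γ 0) (α (γ 0))‖ * Real.log ‖multiplier d p (γ 0) (α (γ 0))‖)) ∧
    -- (2) the distance to the parameters with an attracting cycle, for all `c` in the Multibrot set
    (∀ c ∈ N62a1eb23.multibrotSet d, ∀ p : ℕ, 0 < p → ∀ α : ℂ → ℂ, DifferentiableAt ℂ α c →
        (∀ᶠ c' in 𝓝 c, (f d c')^[p] (α c') = α c') → 1 < ‖multiplier d p c (α c)‖ →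
        ‖deriv (fun c' => multiplier d p c' (α c')) c‖ * infDist c (hyp d) ≤
          2 * density (filledJulia d c) (α c) *
            (‖multiplier d p c (α c)‖ * Real.log ‖multiplier d p c (α c)‖)) := by
  refine ⟨fun E a => ⟨Pool.Agent.H46TP.upDens_nonneg E a, Pool.Agent.H46TP.upDens_le_one E a⟩,
    ?_, ?_⟩
  · intro V hV hVc hno γ hγ hγV hγ0 p hp α hα hper hl
    have hVM : V ⊆ N62a1eb23.multibrotSet d := by
      rcases hno with h | h
      · exact Pool.Agent.H713R2.AR.open_subset hd hV hVc (hγV 0 (mem_ball_self one_pos)) hγ0 h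
      · exact h
    exact Pool.Agent.H46TP.mult_disc hd hγ (fun t ht => hVM (hγV t ht)) rfl hp hα hper hl
  · intro c hc p hp α hα hper hl
    exact Pool.Agent.H46TP.mult_dist hd hc hp hα hper hl

end Pool.Agent.Results.MP_c35c17_an.MultiplierDensity
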